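import Pool.Agent.UMG.StmtsB

/-!
# Squad UMG, block B, row ORB

Problem MP_34c13a_lc.  The Burnside identity for a multigraph.
-/

set_option autoImplicit false

namespace Pool.Agent.UMG.B.H26

open Finset Pool.Agent.UMG Pool.Agent.UMG.B

/-- the automorphisms of `ν` act on the matchings -/
@[reducible] def act {V H : Type} (ν : H → V) : MulAction (Gam ν) (Mt (1 : Equiv.Perm H)) where
  smul γ m := ⟨fun y => γ.1.1 (m.1 (γ.1.1.symm y)), IsMt.conj (g := 1) (g' := 1) γ.1.1 (fun _ => rfl) m.2⟩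
  one_smul _ := rfl
  mul_smul _ _ _ := rfl

theorem isMt_iff {H : Type} (g : Equiv.Perm H) (m : H → H) :
    IsMt g m ↔ IsMt 1 m ∧ ∀ h, m (g h) = g (m h) :=
  ⟨fun h => ⟨⟨h.inv, h.nfx, fun _ => rfl⟩, h.com⟩, fun h => ⟨h.1.inv, h.1.nfx, h.2⟩⟩

theorem orb (hTRA : TraStmt) (hBRN : BrnStmt) : OrbStmt := by
  intro n B H _ ν m hinv hnfx hQ
  let _ := act ν
  have hsm : ∀ (γ : Gam ν) (y : Mt (1 : Equiv.Perm H)) (h : H),
      (γ • y).1 h = γ.1.1 (y.1 (γ.1.1.symm h)) := fun _ _ _ => rfl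
  let m0 : Mt (1 : Equiv.Perm H) := ⟨m, ⟨hinv, hnfx, fun _ => rfl⟩⟩
  have hγ : ∀ (γ : Gam ν) (h : H), ν (γ.1.1 h) = γ.1.2 (ν h) := fun γ h => γ.2 h
  have key : ∀ m' : Mt (1 : Equiv.Perm H), m' ∈ MulAction.orbit (Gam ν) m0 ↔
      ∃ σ : Fin n ≃ Fin n, ∀ v w, QQ ν m'.1 v w = tw B (σ v) (σ w) := by
    intro m'
    constructor
    · rintro ⟨γ, rfl⟩
      refine ⟨γ.1.2.symm, fun v w => ?_⟩
      rw [← hQ]
      unfold QQ
      refine Nat.card_congr (γ.1.1.symm.subtypeEquiv fun h => ?_)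
      have h1 : ν h = γ.1.2 (ν (γ.1.1.symm h)) := by
        rw [← hγ, Equiv.apply_symm_apply]
      have h2 : ((γ • m0).1 h) = γ.1.1 (m (γ.1.1.symm h)) := rfl
      show ν h = v ∧ ν ((γ • m0).1 h) = w ↔ _
      rw [h2, hγ, Equiv.eq_symm_apply, Equiv.eq_symm_apply, ← h1]
    · rintro ⟨σ, hσ⟩
      obtain ⟨e, he1, he2⟩ := hTRA (Fin n × Fin n) H H Prod.swap m m'.1 (fun h => (ν h, ν (m h)))
        (fun h => (σ (ν h), σ (ν (m'.1 h)))) hinv hnfx m'.2.inv m'.2.nfx
        (fun h => by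
          show (ν (m h), ν (m (m h))) = (ν (m h), ν h)
          rw [hinv])
        (fun h => by
          show (σ (ν (m'.1 h)), σ (ν (m'.1 (m'.1 h)))) = (σ (ν (m'.1 h)), σ (ν h))
          rw [m'.2.inv])
        (fun x => by
          have h1 : Nat.card {h // (ν h, ν (m h)) = x} = QQ ν m x.1 x.2 := by
            unfold QQ
            exact Nat.card_congr (Equiv.subtypeEquivRight fun h => Prod.ext_iff)
          have h2 : Nat.card {h // (σ (ν h), σ (ν (m'.1 h))) = x} =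
              QQ ν m'.1 (σ.symm x.1) (σ.symm x.2) := by
            unfold QQ
            refine Nat.card_congr (Equiv.subtypeEquivRight fun h => ?_)
            rw [Prod.ext_iff, Equiv.eq_symm_apply, Equiv.eq_symm_apply]
          rw [h1, h2, hQ, hσ, Equiv.apply_symm_apply, Equiv.apply_symm_apply])
      have h3 : ∀ h, ν (e h) = σ.symm (ν h) := by
        intro h
        rw [Equiv.eq_symm_apply]
        exact congrArg Prod.fst (he1 h)
      refine ⟨⟨(e, σ.symm), h3⟩, ?_⟩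
      refine Subtype.ext (funext fun y => ?_)
      show e (m (e.symm y)) = m'.1 y
      rw [he2, Equiv.apply_symm_apply]
  have hcard : ∀ γ : Gam ν, PhB B (Fin n) H ν γ.1.1 =
      Nat.card {y : Mt (1 : Equiv.Perm H) // y ∈ MulAction.orbit (Gam ν) m0 ∧ γ • y = y} := by
    intro γ
    unfold PhB
    have hfix : ∀ y : Mt (1 : Equiv.Perm H), γ • y = y ↔ ∀ h, y.1 (γ.1.1 h) = γ.1.1 (y.1 h) := by
      intro y
      constructor
      · intro h1 h
        have h2 := congrArg (fun z : Mt (1 : Equiv.Perm H) => z.1 (γ.1.1 h)) h1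
        have h3 : (γ • y).1 (γ.1.1 h) = γ.1.1 (y.1 h) := by
          rw [hsm, Equiv.symm_apply_apply]
        exact h2.symm.trans h3
      · intro h1
        refine Subtype.ext (funext fun h => ?_)
        rw [hsm, ← h1, Equiv.apply_symm_apply]
    refine Nat.card_congr ⟨fun x => ⟨⟨x.1, ((isMt_iff _ _).1 x.2.1).1⟩, (key _).2 x.2.2,
      (hfix _).2 x.2.1.com⟩, fun y => ⟨y.1.1, (isMt_iff _ _).2 ⟨y.1.2, (hfix _).1 y.2.2⟩,
      (key _).1 y.2.1⟩, fun _ => rfl, fun _ => rfl⟩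
  unfold GS
  rw [← hBRN (Gam ν) (Mt (1 : Equiv.Perm H)) m0]
  exact finsum_congr hcard

end Pool.Agent.UMG.B.H26
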